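import Mathlib
import Pool.Agent.P.MP_9ca27c_lc.Defs
import Pool.Agent.K.MP_9ca27c_lc.C0

namespace Pool.Agent.Results.MP_9ca27c_lc.CompletelySolvable

open Pool.Agent.P.MP_9ca27c_lc

theorem result : ∀ K : List Op, Recursive (K.foldr Op.apply RegAp) :=
  Pool.Agent.P.MP_9ca27c_lc.main

end Pool.Agent.Results.MP_9ca27c_lc.CompletelySolvable
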