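import Mathlib
import Pool.Agent.P.MP_9ca27c_lc.Defs
import Pool.Agent.P.MP_9ca27c_lc.ExMain

namespace Pool.Agent.Results.MP_9ca27c_lc.GroupEmbedding

open Pool.Agent.P.MP_9ca27c_lc

theorem result (S : Type) [Semigroup S] [Finite S] :
    ∃ (T : Type) (_ : Semigroup T), Finite T ∧ (∀ a : T, ∃ x : T, a * x * a = a) ∧
      (∀ G : Set T, IsSubgroup G → G.Subsingleton ∨ ∃ H : Set S, IsSubgroup H ∧
        ∃ ψ : S → T, (∀ a ∈ H, ∀ b ∈ H, ψ (a * b) = ψ a * ψ b) ∧ ψ '' H = G) ∧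
      ∃ f : S →ₙ* T, Function.Injective f :=
  Ex.embed_groups S

/-- The aperiodic case: if all subgroups of `S` are trivial, so are their images. -/
theorem aperiodic (S : Type) [Semigroup S] [Finite S]
    (h : ∀ G : Set S, IsSubgroup G → G.Subsingleton) :
    ∃ (T : Type) (_ : Semigroup T), Finite T ∧ (∀ a : T, ∃ x : T, a * x * a = a) ∧
      (∀ G : Set T, IsSubgroup G → G.Subsingleton) ∧
      ∃ f : S →ₙ* T, Function.Injective f := by
  obtain ⟨T, inst, h1, h2, h3, h4⟩ := result S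
  refine ⟨T, inst, h1, h2, fun G hG => (h3 G hG).elim id ?_, h4⟩
  rintro ⟨H, hH, ψ, -, rfl⟩
  exact (h H hH).image ψ

end Pool.Agent.Results.MP_9ca27c_lc.GroupEmbedding
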